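import Pool.Agent.H82.HF.FouD
import Pool.Agent.H82.HF.Scl
import Pool.Agent.H85.DG.ScaD
import Pool.Agent.H48.PR.UniG
import Pool.Agent.H48.PR.DatF
import Pool.Agent.H48.PI.HydU

/-!
# Large data of high frequency from dilute data (scaling)

`f` a solution with datum `lam * h (n x) v`: by uniqueness for Hoelder data (`uniq_self`, as in `sym_of_hol`) `f` has the periods `e_i / n` (`per_of_hol`), so
`n⁻¹ f (t/n, x/n, v)` is a solution for the same kernel (`uscl_sol`, `amp_sol`), with datum `(lam/n) h`. The statement for dilute data is a hypothesis (`Dil`), so that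
the range of the exponents is the one of that theorem.
-/

set_option autoImplicit false

open MeasureTheory Set Filter Topology Pool.Agent.H25.Kin Pool.Agent.H48.PL Pool.Agent.H48.PR
open Pool.Agent.H82.BK Pool.Agent.H82.CM
open Pool.Agent.H82.HF (SchT)

namespace Pool.Agent.H85.HQ

variable {d : ℕ} {γ s C Ca cb : ℝ} {b : ℝ → ℝ}

/-- solutions keep the periods of Hoelder continuous data -/
theorem per_of_hol (HL : HypL d γ s b C Ca cb) (h0 : 0 ≤ γ) (hs : 2 * s < 1) {T : ℝ}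
    {f : ℝ → Vec d → Vec d → ℝ} (hf : IsBoltzmannSol γ b T f) (hpos : ∀ x, 0 < ∫ v, f 0 x v)
    (hH : ∃ α : ℝ, 2 * s < α ∧ α ≤ 1 ∧ HolData α (f 0)) {z : Vec d} (hz : ∀ x v, f 0 (x + z) v = f 0 x v) :
    ∀ t ∈ Ico 0 T, ∀ x v, f t (x + z) v = f t x v := by
  obtain ⟨α, hα, hα1, hh⟩ := hH
  intro t ht x v
  have hT : 0 < T := lt_of_le_of_lt ht.1 ht.2
  have hs0 := HL.H.hs
  have hα' : 2 * s < (2 * s + α) / 2 := by linarith
  have hα'' : (2 * s + α) / 2 < α := by linarith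
  obtain ⟨C₀, hC₀⟩ := hol_data (fun x v => hf.nonneg 0 ⟨le_rfl, hT⟩ x v)
    (fun N => by
      obtain ⟨B, hB⟩ := hf.decay 0 hT N
      exact ⟨B, fun x v => hB 0 ⟨le_rfl, le_rfl⟩ x v⟩) (by linarith) hα'' hh (d + 10)
  obtain ⟨t₁, ht₁, ht₁T, L, hL⟩ := thmL HL h0 hs hα' (by linarith) (le_refl (d + 10)) hf hT hpos hC₀
  exact uniq_self HL.H h0 hα' (by linarith) hf ht₁ ht₁T hL hz t ht x v

/-- the linear map `(t,x,v) ↦ (μt, μx, v)` -/
private noncomputable def hqM (d : ℕ) (μ : ℝ) : (ℝ × Vec d × Vec d) →ₗ[ℝ] (ℝ × Vec d × Vec d) where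
  toFun p := (μ * p.1, μ • p.2.1, p.2.2)
  map_add' p q := by
    refine Prod.ext ?_ (Prod.ext ?_ ?_)
    · show μ * (p.1 + q.1) = μ * p.1 + μ * q.1
      ring
    · show μ • (p.2.1 + q.2.1) = μ • p.2.1 + μ • q.2.1
      exact smul_add _ _ _
    · rfl
  map_smul' c p := by
    refine Prod.ext ?_ (Prod.ext ?_ ?_)
    · show μ * (c * p.1) = c * (μ * p.1)
      ring
    · show μ • (c • p.2.1) = c • (μ • p.2.1)
      exact smul_comm _ _ _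
    · rfl

private noncomputable def hqL (d : ℕ) (μ : ℝ) : (ℝ × Vec d × Vec d) →L[ℝ] (ℝ × Vec d × Vec d) :=
  LinearMap.toContinuousLinearMap (hqM d μ)

private lemma hqL_apply (μ t : ℝ) (x v : Vec d) : hqL d μ (t, x, v) = (μ * t, μ • x, v) := rfl

private lemma unc_hq (μ : ℝ) (f : ℝ → Vec d → Vec d → ℝ) :
    unc (fun t x v => f (μ * t) (μ • x) v) = fun q => unc f (hqL d μ q) := rfl

/-- scaling of solutions with the periods `μ e_i` -/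
theorem uscl_sol (hd : 2 ≤ d) (hs0 : s ∈ Ioo (0 : ℝ) 1) (h0 : 0 ≤ γ + 2 * s) (h2 : γ + 2 * s ≤ 2)
    (hb : IsKernel d s b) {T : ℝ} {f : ℝ → Vec d → Vec d → ℝ} (hf : IsBoltzmannSol γ b T f)
    {μ : ℝ} (hμ : 0 < μ) (hp : ∀ t ∈ Ico 0 T, ∀ x v i, f t (x + μ • (Pi.single i (1 : ℝ) : Vec d)) v = f t x v) :
    IsBoltzmannSol γ (fun x => μ * b x) (T / μ) (fun t x v => f (μ * t) (μ • x) v) := by
  have hlt : ∀ {t : ℝ}, t < T / μ → μ * t < T := by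
    intro t ht
    rw [lt_div_iff₀ hμ] at ht
    linarith [mul_comm t μ]
  have hIco : ∀ {t : ℝ}, t ∈ Ico 0 (T / μ) → μ * t ∈ Ico 0 T := fun ht =>
    ⟨mul_nonneg hμ.le ht.1, hlt ht.2⟩
  have hIoo : ∀ {t : ℝ}, t ∈ Ioo 0 (T / μ) → μ * t ∈ Ioo 0 T := fun ht =>
    ⟨mul_pos hμ ht.1, hlt ht.2⟩
  have hU : IsOpen (Ioo (0 : ℝ) T ×ˢ (univ : Set (Vec d × Vec d))) := isOpen_Ioo.prod isOpen_univ
  unfold IsBoltzmannSol
  refine ⟨?_, ?_, ?_, ?_, ?_, ?_, ?_⟩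
  · intro t ht x v
    exact hf.nonneg _ (hIco ht) _ _
  · intro t ht x v i
    show f (μ * t) (μ • (x + Pi.single i 1)) v = f (μ * t) (μ • x) v
    rw [smul_add]
    exact hp _ (hIco ht) _ v i
  · unfold ContOn
    rw [unc_hq]
    refine hf.isCont.comp (hqL d μ).continuous.continuousOn ?_
    rintro ⟨t, x, v⟩ hq
    rw [hqL_apply]
    exact ⟨hIco hq.1, mem_univ _⟩
  · unfold C2On
    rw [unc_hq]
    refine hf.isC2.comp (hqL d μ).contDiff.contDiffOn ?_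
    rintro ⟨t, x, v⟩ hq
    rw [hqL_apply]
    exact ⟨hIoo hq.1, mem_univ _⟩
  · intro T₁ hT₁ N
    obtain ⟨C, hC⟩ := hf.decay (μ * T₁) (hlt hT₁) N
    exact ⟨C, fun t ht x v =>
      hC (μ * t) ⟨mul_nonneg hμ.le ht.1, mul_le_mul_of_nonneg_left ht.2 hμ.le⟩ _ _⟩
  · intro T₀ hT₀ T₁ hT₁ N
    obtain ⟨C, hC⟩ := hf.decay12 (μ * T₀) (mul_pos hμ hT₀) (μ * T₁) (hlt hT₁) N
    refine ⟨(‖hqL d μ‖ + ‖hqL d μ‖ ^ 2) * C, fun t ht x v => ?_⟩
    have ht' : μ * t ∈ Icc (μ * T₀) (μ * T₁) :=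
      ⟨mul_le_mul_of_nonneg_left ht.1 hμ.le, mul_le_mul_of_nonneg_left ht.2 hμ.le⟩
    have hp : hqL d μ (t, x, v) ∈ Ioo (0 : ℝ) T ×ˢ (univ : Set (Vec d × Vec d)) := by
      rw [hqL_apply]
      exact ⟨⟨lt_of_lt_of_le (mul_pos hμ hT₀) ht'.1, lt_of_le_of_lt ht'.2 (hlt hT₁)⟩, mem_univ _⟩
    have h3 : derivs12 (fun t x v => f (μ * t) (μ • x) v) t x v ≤
        (‖hqL d μ‖ + ‖hqL d μ‖ ^ 2) * derivs12 f (μ * t) (μ • x) v := by
      unfold derivs12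
      rw [unc_hq]
      have := Pool.Agent.H25.PN.derivs_cmp (hqL d μ) hU hf.isC2 hp
      rwa [hqL_apply] at this
    have h4 := hC (μ * t) ht' (μ • x) v
    have hN : 0 ≤ (1 + ‖v‖) ^ N := by positivity
    have hL : 0 ≤ ‖hqL d μ‖ + ‖hqL d μ‖ ^ 2 := by positivity
    calc (1 + ‖v‖) ^ N * derivs12 (fun t x v => f (μ * t) (μ • x) v) t x v
        ≤ (1 + ‖v‖) ^ N * ((‖hqL d μ‖ + ‖hqL d μ‖ ^ 2) * derivs12 f (μ * t) (μ • x) v) :=
          mul_le_mul_of_nonneg_left h3 hN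
      _ = (‖hqL d μ‖ + ‖hqL d μ‖ ^ 2) * ((1 + ‖v‖) ^ N * derivs12 f (μ * t) (μ • x) v) := by ring
      _ ≤ _ := mul_le_mul_of_nonneg_left h4 hL
  · intro t ht x v
    have ht' := hIoo ht
    have e0 : ((μ * 1, μ • v, (0 : Vec d)) : ℝ × Vec d × Vec d) = μ • ((1 : ℝ), v, (0 : Vec d)) := by
      refine Prod.ext ?_ (Prod.ext ?_ ?_)
      · simp
      · simp
      · simp
    have e1 : transport (fun t x v => f (μ * t) (μ • x) v) t x v =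
        μ * transport f (μ * t) (μ • x) v := by
      unfold transport
      rw [unc_hq, Pool.Agent.H25.PN.fderiv_cmp (hqL d μ) hU hf.isC2
        (by rw [hqL_apply]; exact ⟨ht', trivial⟩), hqL_apply, hqL_apply, e0, map_smul,
        smul_eq_mul]
    rw [e1, hf.solves (μ * t) ht' _ _]
    exact (Pool.Agent.H25.PN.boltzQ_scale hd hs0.1 hs0.2 h0 h2 hb μ
      (IsClassicalSol.nice hf ht' _) v).symm

/-- high frequency data are Hoelder continuous (Lipschitz) -/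
theorem sch_hol {h : Vec d → Vec d → ℝ} (hh : SchT h) (lam : ℝ) (n : ℕ) :
    HolData 1 (fun x v => lam * h ((n : ℝ) • x) v) := by
  obtain ⟨C, hC⟩ := hh.dec 0 1
  have hC' : ∀ p : Vec d × Vec d, ‖fderiv ℝ (fun p : Vec d × Vec d => h p.1 p.2) p‖ ≤ |C| := by
    rintro ⟨x, v⟩
    have h1 := hC x v
    rw [norm_iteratedFDeriv_one, pow_zero, one_mul] at h1
    exact h1.trans (le_abs_self C)
  have hd1 : Differentiable ℝ (fun p : Vec d × Vec d => h p.1 p.2) :=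
    (hh.smooth 1).differentiable (by simp)
  have hlip : ∀ x y v w : Vec d, |h x v - h y w| ≤ |C| * (‖x - y‖ + ‖v - w‖) := by
    intro x y v w
    have h1 := (convex_univ (𝕜 := ℝ) (E := Vec d × Vec d)).norm_image_sub_le_of_norm_fderiv_le
      (f := fun p : Vec d × Vec d => h p.1 p.2) (C := |C|) (x := (y, w)) (y := (x, v))
      (fun p _ => hd1 p) (fun p _ => hC' p) (mem_univ _) (mem_univ _)
    rw [Real.norm_eq_abs] at h1
    refine h1.trans (mul_le_mul_of_nonneg_left ?_ (abs_nonneg C))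
    rw [Prod.mk_sub_mk, Prod.norm_mk]
    exact max_le (by linarith [norm_nonneg (v - w)]) (by linarith [norm_nonneg (x - y)])
  refine ⟨|lam| * (|C| * (1 + n)), 0, fun x y v w => ?_⟩
  rw [pow_zero, mul_one, Real.rpow_one, ← mul_sub, abs_mul]
  have h1 := hlip ((n : ℝ) • x) ((n : ℝ) • y) v w
  have hn0 : (0 : ℝ) ≤ n := Nat.cast_nonneg n
  rw [← smul_sub, norm_smul, Real.norm_of_nonneg hn0] at h1
  have hx := norm_nonneg (x - y)
  have hw := norm_nonneg (v - w)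
  have h2 : (n : ℝ) * ‖x - y‖ + ‖v - w‖ ≤ (1 + n) * (‖x - y‖ + ‖v - w‖) := by
    nlinarith [mul_nonneg hn0 hw]
  have h3 : |h ((n : ℝ) • x) v - h ((n : ℝ) • y) w| ≤ |C| * ((1 + n) * (‖x - y‖ + ‖v - w‖)) :=
    h1.trans (mul_le_mul_of_nonneg_left h2 (abs_nonneg C))
  calc |lam| * |h ((n : ℝ) • x) v - h ((n : ℝ) • y) w|
      ≤ |lam| * (|C| * ((1 + n) * (‖x - y‖ + ‖v - w‖))) := mul_le_mul_of_nonneg_left h3 (abs_nonneg lam)
    _ = _ := by ring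

/-- the statement for dilute data near `δ h`, `δ ≤ δ₀` (the conclusion of `dilute_plain`, H48/CV/FinV) -/
def Dil (d : ℕ) (γ : ℝ) (b : ℝ → ℝ) (h : Vec d → Vec d → ℝ) (B : ℕ → ℝ) : Prop :=
  ∃ δ₀ > 0, ∃ ε > 0, ∃ (M₀ : ℝ) (U : ℕ → ℝ), ∀ δ ∈ Ioc (0 : ℝ) δ₀, ∃ m₀ > 0,
    ∀ (T : ℝ) (f : ℝ → Vec d → Vec d → ℝ), IsBoltzmannSol γ b T f →
      (∀ (N : ℕ) (x v : Vec d), (1 + ‖v‖) ^ N * f 0 x v ≤ δ * B N) →
      (∀ x v, |f 0 x v - δ * h x v| ≤ δ * ε) →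
      ∀ t ∈ Ico 0 T, ∀ x, HydroBounds m₀ M₀ M₀ M₀ (f t x) ∧
        ∀ (N : ℕ) (v : Vec d), (1 + ‖v‖) ^ N * f t x v ≤ δ * U N

/-- large data near `lam * h (n x) v`, `n ≥ n₀` -/
theorem big_nbhd (hd : 2 ≤ d) (hs : 0 < s) (h0 : 0 ≤ γ) (hs1 : 2 * s < 1) (h2 : γ + 2 * s ≤ 2)
    (hb : IsKernel d s b) {h : Vec d → Vec d → ℝ} {B : ℕ → ℝ} (hD : Dil d γ b h B) :
    ∃ ε > 0, ∃ U : ℕ → ℝ, ∀ lam > 0, ∃ n₀ : ℕ, 1 ≤ n₀ ∧ ∃ M₀ : ℝ, ∀ n : ℕ, n₀ ≤ n → ∃ m₀ > 0,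
      ∀ (T : ℝ) (f : ℝ → Vec d → Vec d → ℝ), IsBoltzmannSol γ b T f →
      (∀ x v i, f 0 (x + (n : ℝ)⁻¹ • (Pi.single i (1 : ℝ) : Vec d)) v = f 0 x v) →
      (∀ x, 0 < ∫ v, f 0 x v) → (∃ α : ℝ, 2 * s < α ∧ α ≤ 1 ∧ HolData α (f 0)) →
      (∀ (N : ℕ) (x v : Vec d), (1 + ‖v‖) ^ N * f 0 x v ≤ lam * B N) →
      (∀ x v, |f 0 x v - lam * h ((n : ℝ) • x) v| ≤ lam * ε) →
      ∀ t ∈ Ico 0 T, ∀ x, HydroBounds m₀ M₀ M₀ M₀ (f t x) ∧
        ∀ (N : ℕ) (v : Vec d), (1 + ‖v‖) ^ N * f t x v ≤ lam * U N := by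
  obtain ⟨δ₀, hδ₀, ε, hε, M₁, U, hU⟩ := hD
  have hs1' : s < 1 := by linarith
  have hγs : 0 ≤ γ + 2 * s := by linarith
  obtain ⟨C, Ca, cb, HL⟩ := exists_hypL hd hs hs1' hγs h2 hb
  refine ⟨ε, hε, U, fun lam hlam => ?_⟩
  obtain ⟨M₀, hM₀⟩ := Pool.Agent.H48.PI.hydro_of_U d (fun N => lam * U N)
  refine ⟨max 1 ⌈lam / δ₀⌉₊, le_max_left _ _, M₀, fun n hn => ?_⟩
  have hn1 : 1 ≤ n := (le_max_left _ _).trans hn
  have hn0 : (0 : ℝ) < n := by exact_mod_cast hn1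
  have hnl : lam / δ₀ ≤ n := (Nat.le_ceil _).trans (by exact_mod_cast (le_max_right _ _).trans hn)
  obtain ⟨μ, hμ⟩ : ∃ μ : ℝ, μ = (n : ℝ)⁻¹ := ⟨_, rfl⟩
  have hμ0 : 0 < μ := by rw [hμ]; exact inv_pos.2 hn0
  have hμn : μ * n = 1 := by rw [hμ]; exact inv_mul_cancel₀ hn0.ne'
  have hδ : μ * lam ∈ Ioc (0 : ℝ) δ₀ := by
    refine ⟨mul_pos hμ0 hlam, ?_⟩
    rw [div_le_iff₀ hδ₀] at hnl
    calc μ * lam ≤ μ * (n * δ₀) := mul_le_mul_of_nonneg_left hnl hμ0.le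
      _ = δ₀ := by rw [← mul_assoc, hμn, one_mul]
  obtain ⟨m, hm, hr⟩ := hU _ hδ
  refine ⟨n * m, mul_pos hn0 hm, fun T f hf hper hpos hH hB hh t ht x => ?_⟩
  have hp : ∀ t ∈ Ico 0 T, ∀ x v i, f t (x + μ • (Pi.single i (1 : ℝ) : Vec d)) v = f t x v := by
    intro t ht x v i
    exact per_of_hol HL h0 hs1 hf hpos hH (fun x v => by rw [hμ]; exact hper x v i) t ht x v
  have g1 := uscl_sol hd ⟨hs, hs1'⟩ hγs h2 hb hf hμ0 hp
  have hb' : IsKernel d s (fun x => μ * b x) := Pool.Agent.H25.PN.kernel_scale hb hμ0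
  have g2 := Pool.Agent.H85.DG.amp_sol hd hs hs1' hγs h2 hb' (inv_pos.2 hμ0) g1
  have e1 : (fun x => μ⁻¹ * (μ * b x)) = b := by
    funext x
    rw [inv_mul_cancel_left₀ hμ0.ne']
  rw [e1, inv_inv] at g2
  have hnx : ∀ x : Vec d, (n : ℝ) • (μ • x) = x := fun x => by
    rw [smul_smul, mul_comm, hμn, one_smul]
  have key := hr (T / μ) _ g2
    (fun N x v => by
      show (1 + ‖v‖) ^ N * (μ * f (μ * 0) (μ • x) v) ≤ μ * lam * B N
      rw [mul_zero]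
      have h3 := mul_le_mul_of_nonneg_left (hB N (μ • x) v) hμ0.le
      calc (1 + ‖v‖) ^ N * (μ * f 0 (μ • x) v) = μ * ((1 + ‖v‖) ^ N * f 0 (μ • x) v) := by ring
        _ ≤ μ * (lam * B N) := h3
        _ = _ := by ring)
    (fun x v => by
      show |μ * f (μ * 0) (μ • x) v - μ * lam * h x v| ≤ μ * lam * ε
      rw [mul_zero]
      have h3 := mul_le_mul_of_nonneg_left (hh (μ • x) v) hμ0.le
      rw [hnx] at h3
      have e2 : μ * f 0 (μ • x) v - μ * lam * h x v = μ * (f 0 (μ • x) v - lam * h x v) := by ring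
      rw [e2, abs_mul, abs_of_pos hμ0]
      calc μ * |f 0 (μ • x) v - lam * h x v| ≤ μ * (lam * ε) := h3
        _ = _ := by ring)
  have hμnx : ∀ x : Vec d, μ • ((n : ℝ) • x) = x := fun x => by
    rw [smul_smul, hμn, one_smul]
  have hdec : ∀ t ∈ Ico 0 T, ∀ x, (n * m ≤ ∫ v, f t x v) ∧ ∀ (N : ℕ) (v : Vec d), (1 + ‖v‖) ^ N * f t x v ≤ lam * U N := by
    intro t ht x
    have ht' : (n : ℝ) * t ∈ Ico 0 (T / μ) := by
      refine ⟨mul_nonneg hn0.le ht.1, ?_⟩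
      rw [lt_div_iff₀ hμ0]
      calc (n : ℝ) * t * μ = t * (μ * n) := by ring
        _ = t := by rw [hμn, mul_one]
        _ < T := ht.2
    obtain ⟨k1, k2⟩ := key _ ht' ((n : ℝ) • x)
    have e3 : μ * ((n : ℝ) * t) = t := by rw [← mul_assoc, hμn, one_mul]
    have e4 : (fun v => μ * f (μ * ((n : ℝ) * t)) (μ • ((n : ℝ) • x)) v) = fun v => μ * f t x v := by
      rw [e3, hμnx]
    constructor
    · have h3 : m ≤ ∫ v, μ * f (μ * ((n : ℝ) * t)) (μ • ((n : ℝ) • x)) v := k1.1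
      rw [e4, integral_const_mul] at h3
      calc (n : ℝ) * m ≤ n * (μ * ∫ v, f t x v) := mul_le_mul_of_nonneg_left h3 hn0.le
        _ = (μ * n) * ∫ v, f t x v := by ring
        _ = _ := by rw [hμn, one_mul]
    · intro N v
      have h3 := k2 N v
      have h4 : (1 + ‖v‖) ^ N * (μ * f t x v) ≤ μ * lam * U N := by
        have e5 : μ * f (μ * ((n : ℝ) * t)) (μ • ((n : ℝ) • x)) v = μ * f t x v := congrFun e4 v
        rw [← e5]
        exact h3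
      have h5 := mul_le_mul_of_nonneg_left h4 hn0.le
      calc (1 + ‖v‖) ^ N * f t x v = (μ * n) * ((1 + ‖v‖) ^ N * f t x v) := by rw [hμn, one_mul]
        _ = n * ((1 + ‖v‖) ^ N * (μ * f t x v)) := by ring
        _ ≤ n * (μ * lam * U N) := h5
        _ = (μ * n) * (lam * U N) := by ring
        _ = _ := by rw [hμn, one_mul]
  have hyd := hM₀ T _ f hf (fun N t ht x v => (hdec t ht x).2 N v) t ht x
  exact ⟨⟨(hdec t ht x).1, hyd.1, hyd.2.1, hyd.2.2⟩, (hdec t ht x).2⟩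

/-- large data of high frequency -/
theorem big_plain (hd : 2 ≤ d) (hs : 0 < s) (h0 : 0 ≤ γ) (hs1 : 2 * s < 1) (h2 : γ + 2 * s ≤ 2)
    (hb : IsKernel d s b) {h : Vec d → Vec d → ℝ} (hh : SchT h) (hv : ∀ x, 0 < ∫ v, h x v)
    (hD : ∀ B : ℕ → ℝ, Dil d γ b h B) :
    ∃ U : ℕ → ℝ, ∀ lam > 0, ∃ n₀ : ℕ, 1 ≤ n₀ ∧ ∃ M₀ : ℝ, ∀ n : ℕ, n₀ ≤ n → ∃ m₀ > 0,
      ∀ (T : ℝ) (f : ℝ → Vec d → Vec d → ℝ), IsBoltzmannSol γ b T f →
      (∀ x v, f 0 x v = lam * h ((n : ℝ) • x) v) →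
      ∀ t ∈ Ico 0 T, ∀ x, HydroBounds m₀ M₀ M₀ M₀ (f t x) ∧
        ∀ (N : ℕ) (v : Vec d), (1 + ‖v‖) ^ N * f t x v ≤ lam * U N := by
  choose B hB using fun N : ℕ => Pool.Agent.H82.HF.sch_bd hh N
  obtain ⟨ε, hε, U, h1⟩ := big_nbhd hd hs h0 hs1 h2 hb (hD B)
  refine ⟨U, fun lam hlam => ?_⟩
  obtain ⟨n₀, hn₀, M₀, h2'⟩ := h1 lam hlam
  refine ⟨n₀, hn₀, M₀, fun n hn => ?_⟩
  obtain ⟨m₀, hm₀, h3⟩ := h2' n hn
  have hn1 : 1 ≤ n := hn₀.trans hn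
  have hn0 : (0 : ℝ) < n := by exact_mod_cast hn1
  refine ⟨m₀, hm₀, fun T f hf hf0 => ?_⟩
  have e0 : f 0 = fun x v => lam * h ((n : ℝ) • x) v := by
    funext x v
    exact hf0 x v
  refine h3 T f hf (fun x v i => ?_) (fun x => ?_) ⟨1, by linarith, le_rfl, by rw [e0]; exact sch_hol hh lam n⟩
    (fun N x v => ?_) (fun x v => ?_)
  · rw [hf0, hf0, smul_add, smul_smul, mul_inv_cancel₀ hn0.ne', one_smul, hh.per]
  · have e1 : (fun v => f 0 x v) = fun v => lam * h ((n : ℝ) • x) v := by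
      funext v
      exact hf0 x v
    rw [e1, integral_const_mul]
    exact mul_pos hlam (hv _)
  · rw [hf0]
    have h4 := (hB N).2 ((n : ℝ) • x) v
    have h5 : (1 + ‖v‖) ^ N * h ((n : ℝ) • x) v ≤ B N :=
      (mul_le_mul_of_nonneg_left (le_abs_self _) (by positivity)).trans h4
    calc (1 + ‖v‖) ^ N * (lam * h ((n : ℝ) • x) v) = lam * ((1 + ‖v‖) ^ N * h ((n : ℝ) • x) v) := by ring
      _ ≤ lam * B N := mul_le_mul_of_nonneg_left h5 hlam.le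
  · rw [hf0, sub_self, abs_zero]
    positivity

end Pool.Agent.H85.HQ
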